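import Pool.Agent.Helper51.PF.Goals

/-!
# Project PF, packet RED: hits in terms of the partial products of the first half
-/

open Finset Pool.Agent.Helper51.PF

namespace Pool.Agent.Helper46.PF

variable {p s : ℕ} (σ : Equiv.Perm (moved p s))

/-- partial products of the list -/
def QQ (p s : ℕ) (σ : Equiv.Perm (moved p s)) (n : ℕ) : ZMod p := ∏ i ∈ Finset.Icc 1 n, lst p s σ i

theorem QQ_succ (n : ℕ) : QQ p s σ (n + 1) = QQ p s σ n * lst p s σ (n + 1) := by
  unfold QQ
  rw [Finset.prod_Icc_succ_top (by omega)]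

theorem PP_succ (n : ℕ) : PP p s σ (n + 1) = PP p s σ n * (fsth p s σ (n + 1) : ZMod p) := by
  unfold PP
  rw [Finset.prod_Icc_succ_top (by omega)]

theorem QQ_eq_PP {n : ℕ} (hn : n ≤ hh p) : QQ p s σ n = PP p s σ n := by
  unfold QQ PP
  refine Finset.prod_congr rfl fun i hi => ?_
  rw [Finset.mem_Icc] at hi
  unfold lst
  rw [if_pos (by omega)]

theorem prod_id (p n : ℕ) : ∏ i ∈ Finset.Icc 1 n, (i : ZMod p) = (n.factorial : ZMod p) := by
  induction n with
  | zero => simp
  | succ n ih => rw [Finset.prod_Icc_succ_top (by omega), ih, Nat.factorial_succ]; push_cast; ring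

theorem PP_half : PP p s σ (hh p) = ((hh p).factorial : ZMod p) := by
  have h1 : PP p s σ (hh p) = ∏ i ∈ Finset.Icc 1 (hh p), (i : ZMod p) := by
    unfold PP
    rw [← Finset.prod_filter_mul_prod_filter_not (Finset.Icc 1 (hh p))
      (fun x => x % s = hh p % s) (fun i => (fsth p s σ i : ZMod p)),
      ← Finset.prod_filter_mul_prod_filter_not (Finset.Icc 1 (hh p))
      (fun x => x % s = hh p % s) (fun i => (i : ZMod p))]
    congr 1
    · change ∏ i ∈ moved p s, (fsth p s σ i : ZMod p) = ∏ i ∈ moved p s, (i : ZMod p)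
      rw [← Finset.prod_coe_sort (moved p s) (fun i => (fsth p s σ i : ZMod p)),
        ← Finset.prod_coe_sort (moved p s) (fun i => (i : ZMod p)),
        ← Equiv.prod_comp σ (fun i : moved p s => ((i : ℕ) : ZMod p))]
      refine Finset.prod_congr rfl fun i _ => ?_
      unfold fsth
      rw [dif_pos i.2]
    · refine Finset.prod_congr rfl fun i hi => ?_
      unfold fsth
      rw [dif_neg]
      intro hm
      unfold moved at hm
      rw [Finset.mem_filter] at hi hm
      exact hi.2 hm.2
  rw [h1, prod_id]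

theorem two_hh [hp : Fact p.Prime] (h3 : 3 ≤ p) : p - 1 = 2 * hh p := by
  have h : Odd p := hp.out.odd_of_ne_two (by omega)
  obtain ⟨k, rfl⟩ := h
  unfold hh
  omega

theorem pairing [hp : Fact p.Prime] (h3 : 3 ≤ p) {m : ℕ} (hm : m ≤ hh p) :
    QQ p s σ (p - 1 - m) * ((-1) ^ m * PP p s σ m) = QQ p s σ (p - 1) := by
  have h2 := two_hh h3
  induction m with
  | zero => simp [PP]
  | succ m ih =>
    rw [← ih (by omega)]
    have e1 : p - 1 - m = (p - 1 - (m + 1)) + 1 := by omega
    have e2 : lst p s σ ((p - 1 - (m + 1)) + 1) = -(fsth p s σ (m + 1) : ZMod p) := by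
      unfold lst
      rw [if_neg (by omega)]
      congr 3
      omega
    rw [e1, QQ_succ, e2, PP_succ]
    ring

theorem QQ_refl_nat [hp : Fact p.Prime] (h3 : 3 ≤ p) :
    QQ p s (Equiv.refl _) (p - 1) = -1 := by
  have h2 := two_hh h3
  have hf : ∀ i, fsth p s (Equiv.refl _) i = i := by
    intro i
    unfold fsth
    split_ifs <;> rfl
  have h1 : QQ p s (Equiv.refl _) (p - 1) = ∏ i ∈ Finset.Icc 1 (p - 1), (i : ZMod p) := by
    unfold QQ
    refine Finset.prod_congr rfl fun i hi => ?_
    rw [Finset.mem_Icc] at hi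
    unfold lst
    rw [hf, hf]
    split_ifs
    · rfl
    · rw [Nat.cast_sub (by omega)]
      simp
  rw [h1, prod_id, ZMod.wilsons_lemma p]

theorem QQ_last [hp : Fact p.Prime] (h3 : 3 ≤ p) : QQ p s σ (p - 1) = -1 := by
  have h2 := two_hh h3
  have e : p - 1 - hh p = hh p := by omega
  rw [← QQ_refl_nat (s := s) h3, ← pairing σ h3 le_rfl, ← pairing (Equiv.refl _) h3 le_rfl, e,
    QQ_eq_PP _ le_rfl, QQ_eq_PP _ le_rfl, PP_half, PP_half]

theorem hit_iff [hp : Fact p.Prime] (h3 : 3 ≤ p) {m : ℕ} (hm : m ≤ hh p) :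
    QQ p s σ (p - 1 - m) = -1 ↔ PP p s σ m = (-1) ^ m := by
  have h := pairing σ h3 hm
  rw [QQ_last σ h3] at h
  have hs : ((-1 : ZMod p) ^ m) * (-1) ^ m = 1 := by
    rw [← mul_pow]; simp
  constructor
  · intro h1
    rw [h1] at h
    have h4 : (-1) ^ m * PP p s σ m = 1 := by linear_combination -h
    calc PP p s σ m = ((-1) ^ m * (-1) ^ m) * PP p s σ m := by rw [hs, one_mul]
      _ = (-1) ^ m * ((-1) ^ m * PP p s σ m) := by ring
      _ = (-1) ^ m := by rw [h4, mul_one]
  · intro h1
    rw [h1, hs, mul_one] at h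
    exact h

theorem g_red : G_RED := by
  intro p s n0 _ σ h3 hs hn0
  have h2 := two_hh h3
  have hNo : NoHit p s σ n0 ↔ ∀ n, 1 ≤ n → n ≤ n0 → QQ p s σ n ≠ -1 := Iff.rfl
  rw [hNo]
  by_cases h : n0 < hh p
  · simp only [h, true_or, true_and, tgt, if_true]
    constructor
    · intro H m h1 h1'
      split_ifs with hm
      · rw [Finset.mem_singleton, ← QQ_eq_PP σ (by omega)]
        exact H m h1 hm
      · simp
    · intro H n h1 h1'
      have := H n h1 (by omega)
      rw [if_pos h1', Finset.mem_singleton, ← QQ_eq_PP σ (by omega)] at this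
      exact this
  · have hle : hh p ≤ n0 := not_lt.1 h
    simp only [h, false_or, tgt, if_false]
    constructor
    · intro H
      constructor
      · rw [← PP_half σ, ← QQ_eq_PP σ le_rfl]
        exact H _ (by omega) hle
      · intro m h1 h1'
        have k1 : PP p s σ m ≠ -1 := by
          rw [← QQ_eq_PP σ (by omega)]
          exact H m h1 (by omega)
        split_ifs with hm
        · rw [Finset.mem_insert, Finset.mem_singleton, not_or]
          refine ⟨k1, ?_⟩
          have k2 := H (p - 1 - m) (by omega) (by omega)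
          rw [Ne, hit_iff σ h3 (by omega), hm.1.neg_one_pow] at k2
          exact k2
        · rw [Finset.mem_singleton]
          exact k1
    · rintro ⟨H1, H2⟩ n h1 h1'
      have key : ∀ m, 1 ≤ m → m < hh p → PP p s σ m ≠ -1 := by
        intro m k1 k2
        have := H2 m k1 k2
        split_ifs at this with hm
        · rw [Finset.mem_insert, not_or] at this
          exact this.1
        · rw [Finset.mem_singleton] at this
          exact this
      rcases lt_trichotomy n (hh p) with hn | hn | hn
      · rw [QQ_eq_PP σ hn.le]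
        exact key n h1 hn
      · rw [hn, QQ_eq_PP σ le_rfl, PP_half]
        exact H1
      · have e : n = p - 1 - (p - 1 - n) := by omega
        rw [e, Ne, hit_iff σ h3 (by omega)]
        rcases Nat.even_or_odd (p - 1 - n) with he | ho
        · rw [he.neg_one_pow]
          have := H2 (p - 1 - n) (by omega) (by omega)
          rw [if_pos ⟨he, by omega⟩, Finset.mem_insert, Finset.mem_singleton, not_or] at this
          exact this.2
        · rw [ho.neg_one_pow]
          exact key _ (by omega) (by omega)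

end Pool.Agent.Helper46.PF
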